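import Pool.Agent.Helper80.LR.Spec

set_option autoImplicit false
open Classical Filter Topology

namespace Pool.Agent.Helper93.LR
open Pool.Agent.Helper80.LR

/-- cells of `U` inside a product, counted along the first coordinate -/
theorem card_inter_prod_left {n k : ℕ} {U : Finset (Cell n)} (hU : MaxDeg k U)
    (S T : Finset (Fin n)) : ((S ×ˢ T) ∩ U).card ≤ S.card * k := by
  have h : (S ×ˢ T) ∩ U ⊆ S.biUnion (fun j => U ∩ star (Sum.inl j)) := by
    intro e he
    simp only [Finset.mem_inter, Finset.mem_product] at he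
    simp only [Finset.mem_biUnion, Finset.mem_inter, Pool.Agent.Helper80.LR.star, Sum.elim_inl, Finset.mem_filter,
      Finset.mem_univ, true_and]
    exact ⟨e.1, he.1.1, he.2, rfl⟩
  calc ((S ×ˢ T) ∩ U).card ≤ (S.biUnion (fun j => U ∩ star (Sum.inl j))).card :=
        Finset.card_le_card h
    _ ≤ S.card * k := Finset.card_biUnion_le_card_mul _ _ _ (fun j _ => hU _)

theorem card_inter_prod_right {n k : ℕ} {U : Finset (Cell n)} (hU : MaxDeg k U)
    (S T : Finset (Fin n)) : ((S ×ˢ T) ∩ U).card ≤ T.card * k := by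
  have h : (S ×ˢ T) ∩ U ⊆ T.biUnion (fun s => U ∩ star (Sum.inr s)) := by
    intro e he
    simp only [Finset.mem_inter, Finset.mem_product] at he
    simp only [Finset.mem_biUnion, Finset.mem_inter, Pool.Agent.Helper80.LR.star, Sum.elim_inr, Finset.mem_filter,
      Finset.mem_univ, true_and]
    exact ⟨e.2, he.1.2, he.2, rfl⟩
  calc ((S ×ˢ T) ∩ U).card ≤ (T.biUnion (fun j => U ∩ star (Sum.inr j))).card :=
        Finset.card_le_card h
    _ ≤ T.card * k := Finset.card_biUnion_le_card_mul _ _ _ (fun j _ => hU _)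

theorem card_diff {n k : ℕ} {c c1 : ℝ} (hc : c < 1 / 2) (hc1 : 0 < c1) {U : Finset (Cell n)}
    (hk : (k : ℝ) ≤ c * n) (hU : MaxDeg k U) (S T : Finset (Fin n)) (hST : S.card + T.card = n + 1)
    (hS : c1 * n ≤ (S.card : ℝ)) (hT : c1 * n ≤ (T.card : ℝ)) :
    c1 * (1 / 2 - c) * (n : ℝ) ^ 2 ≤ (((S ×ˢ T) \ U).card : ℝ) := by
  have hn0 : (0 : ℝ) ≤ n := Nat.cast_nonneg n
  have hsum : (S.card : ℝ) + T.card = n + 1 := by exact_mod_cast hST
  have hcard : (((S ×ˢ T) \ U).card : ℝ) = (S.card : ℝ) * T.card - (((S ×ˢ T) ∩ U).card : ℝ) := by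
    have h := Finset.card_sdiff_add_card_inter (S ×ˢ T) U
    rw [Finset.card_product] at h
    have h' : (((S ×ˢ T) \ U).card : ℝ) + (((S ×ˢ T) ∩ U).card : ℝ) = (S.card : ℝ) * T.card := by
      exact_mod_cast h
    linarith
  rw [hcard]
  rcases le_total S.card T.card with h | h
  · have h1 : (((S ×ˢ T) ∩ U).card : ℝ) ≤ S.card * k := by
      exact_mod_cast card_inter_prod_left hU S T
    have h2 : (S.card : ℝ) ≤ T.card := by exact_mod_cast h
    have h3 : (1 / 2 - c) * n ≤ (T.card : ℝ) - k := by linarith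
    have h4 : 0 ≤ (1 / 2 - c) * n := mul_nonneg (by linarith) hn0
    calc c1 * (1 / 2 - c) * (n : ℝ) ^ 2 = (c1 * n) * ((1 / 2 - c) * n) := by ring
      _ ≤ (S.card : ℝ) * ((T.card : ℝ) - k) := mul_le_mul hS h3 h4 (Nat.cast_nonneg _)
      _ ≤ _ := by linarith
  · have h1 : (((S ×ˢ T) ∩ U).card : ℝ) ≤ T.card * k := by
      exact_mod_cast card_inter_prod_right hU S T
    have h2 : (T.card : ℝ) ≤ S.card := by exact_mod_cast h
    have h3 : (1 / 2 - c) * n ≤ (S.card : ℝ) - k := by linarith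
    have h4 : 0 ≤ (1 / 2 - c) * n := mul_nonneg (by linarith) hn0
    calc c1 * (1 / 2 - c) * (n : ℝ) ^ 2 = (c1 * n) * ((1 / 2 - c) * n) := by ring
      _ ≤ (T.card : ℝ) * ((S.card : ℝ) - k) := mul_le_mul hT h3 h4 (Nat.cast_nonneg _)
      _ ≤ _ := by linarith

theorem large : LargeStmt := by
  intro c c1 hc hc1
  set c' : ℝ := c1 * (1 / 2 - c) with hc'
  have hc'0 : 0 < c' := mul_pos hc1 (by linarith)
  refine ⟨⌈Real.exp ((Real.log 4 + 4) / c')⌉₊ + 1, ?_⟩
  intro n hn p hp0 hp1 hpn k U hk hU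
  have hnR : Real.exp ((Real.log 4 + 4) / c') ≤ n := by
    have h1 := Nat.le_ceil (Real.exp ((Real.log 4 + 4) / c'))
    have h2 : ((⌈Real.exp ((Real.log 4 + 4) / c')⌉₊ : ℕ) : ℝ) ≤ n := by
      exact_mod_cast (by omega : ⌈Real.exp ((Real.log 4 + 4) / c')⌉₊ ≤ n)
    exact h1.trans h2
  have hn1 : 1 ≤ n := by omega
  have hn0 : (0 : ℝ) < n := by exact_mod_cast hn1
  have hlogn : (Real.log 4 + 4) / c' ≤ Real.log n := by
    rw [Real.le_log_iff_exp_le hn0]; exact hnR
  have hlog4 : Real.log 4 + 4 ≤ c' * Real.log n := by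
    rw [div_le_iff₀ hc'0] at hlogn; linarith
  set F : Finset (Finset (Fin n) × Finset (Fin n)) :=
    (Finset.univ).filter (fun q => q.1.card + q.2.card = n + 1 ∧ c1 * n ≤ (q.1.card : ℝ) ∧
      c1 * n ≤ (q.2.card : ℝ)) with hF
  have hstep : pr1 n p (fun G => ¬ Large (c1 * n) G U)
      ≤ pr1 n p (fun G => ∃ q ∈ F, G ∩ ((q.1 ×ˢ q.2) \ U) = ∅) := by
    apply pr1_mono hp0 hp1
    intro G hG
    unfold Large at hG
    push Not at hG
    obtain ⟨S, T, hST, hS, hT, h⟩ := hG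
    refine ⟨(S, T), ?_, ?_⟩
    · simp only [hF, Finset.mem_filter, Finset.mem_univ, true_and]; exact ⟨hST, hS, hT⟩
    · ext e
      simp only [Finset.mem_inter, Finset.mem_sdiff, Finset.mem_product]
      constructor
      · rintro ⟨h1, ⟨h2, h3⟩, h4⟩
        exact absurd h3 (h e (Finset.mem_sdiff.mpr ⟨h1, h4⟩) h2)
      · intro h1; simp at h1
  have hone : ∀ q ∈ F, pr1 n p (fun G => G ∩ ((q.1 ×ˢ q.2) \ U) = ∅)
      ≤ Real.exp (-(c' * n * Real.log n)) := by
    intro q hq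
    simp only [hF, Finset.mem_filter, Finset.mem_univ, true_and] at hq
    have hcd := card_diff hc hc1 hk hU q.1 q.2 hq.1 hq.2.1 hq.2.2
    rw [pr1_empty]
    have h1 : (1 - p) ^ ((q.1 ×ˢ q.2) \ U).card ≤ Real.exp (-(p * (((q.1 ×ˢ q.2) \ U).card : ℝ))) := by
      have h2 : Real.exp (-(p * (((q.1 ×ˢ q.2) \ U).card : ℝ)))
          = (Real.exp (-p)) ^ ((q.1 ×ˢ q.2) \ U).card := by
        rw [← Real.exp_nat_mul]; congr 1; ring
      rw [h2]
      refine pow_le_pow_left₀ (by linarith) ?_ _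
      have := Real.add_one_le_exp (-p)
      linarith
    refine h1.trans (Real.exp_le_exp.mpr ?_)
    have h3 : c' * n * Real.log n ≤ p * (((q.1 ×ˢ q.2) \ U).card : ℝ) := by
      calc c' * n * Real.log n ≤ c' * n * (p * n) :=
            mul_le_mul_of_nonneg_left hpn (by positivity)
        _ = p * (c1 * (1 / 2 - c) * (n : ℝ) ^ 2) := by rw [hc']; ring
        _ ≤ _ := mul_le_mul_of_nonneg_left hcd hp0
    linarith
  have hcardF : (F.card : ℝ) ≤ 4 ^ n := by
    have h1 : F.card ≤ (Finset.univ : Finset (Finset (Fin n) × Finset (Fin n))).card :=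
      Finset.card_filter_le _ _
    have h2 : (Finset.univ : Finset (Finset (Fin n) × Finset (Fin n))).card = 4 ^ n := by
      rw [Finset.card_univ, Fintype.card_prod, Fintype.card_finset, Fintype.card_fin, ← mul_pow]
      norm_num
    rw [h2] at h1
    exact_mod_cast h1
  calc pr1 n p (fun G => ¬ Large (c1 * n) G U)
      ≤ pr1 n p (fun G => ∃ q ∈ F, G ∩ ((q.1 ×ˢ q.2) \ U) = ∅) := hstep
    _ ≤ ∑ q ∈ F, pr1 n p (fun G => G ∩ ((q.1 ×ˢ q.2) \ U) = ∅) :=
        pr1_exists_le hp0 hp1 F (fun q G => G ∩ ((q.1 ×ˢ q.2) \ U) = ∅)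
    _ ≤ ∑ q ∈ F, Real.exp (-(c' * n * Real.log n)) := Finset.sum_le_sum hone
    _ = F.card * Real.exp (-(c' * n * Real.log n)) := by rw [Finset.sum_const, nsmul_eq_mul]
    _ ≤ 4 ^ n * Real.exp (-(c' * n * Real.log n)) :=
        mul_le_mul_of_nonneg_right hcardF (Real.exp_pos _).le
    _ = Real.exp (n * Real.log 4 - c' * n * Real.log n) := by
        rw [sub_eq_add_neg, Real.exp_add]
        congr 1
        rw [Real.exp_nat_mul, Real.exp_log (by norm_num)]
    _ ≤ Real.exp (-((4 : ℕ) * Real.log n)) := by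
        apply Real.exp_le_exp.mpr
        have h1 : Real.log n ≤ n := (Real.log_le_sub_one_of_pos hn0).trans (by linarith)
        have h2 : (n : ℝ) * (Real.log 4 + 4) ≤ n * (c' * Real.log n) :=
          mul_le_mul_of_nonneg_left hlog4 hn0.le
        push_cast
        nlinarith
    _ = 1 / (n : ℝ) ^ 4 := by
        rw [Real.exp_neg, Real.exp_nat_mul, Real.exp_log hn0, one_div]

end Pool.Agent.Helper93.LR
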