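import Pool.Agent.Helper80.LR.Spec

set_option autoImplicit false
open Classical Filter Topology

namespace Pool.Agent.Helper93.LR
open Pool.Agent.Helper80.LR

theorem pr1_or_le {n : ℕ} {p : ℝ} (h0 : 0 ≤ p) (h1 : p ≤ 1) (A B : Finset (Cell n) → Prop) :
    pr1 n p (fun G => A G ∨ B G) ≤ pr1 n p A + pr1 n p B := by
  have h := pr1_exists_le h0 h1 (Finset.univ : Finset Bool) (fun b => if b then A else B)
  simp only [Finset.mem_univ, true_and, Bool.exists_bool, Fintype.sum_bool] at h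
  simp only [if_true] at h
  have e : (fun G => A G ∨ B G) = (fun G => (if false = true then A else B) G ∨ A G) := by
    funext G; simp [or_comm]
  rw [e]
  refine le_trans h ?_
  simp

/-- one pair -/
theorem one_pair {κ : ℝ} (hκ : 0 < κ) {n : ℕ} (hn : 3 ≤ n) {p : ℝ} (hp0 : 0 ≤ p) (hp1 : p ≤ 1)
    (hpn : p * n ≤ 3 * Real.log n) (a : ℕ) (ha : 0 < a)
    (hac : (a : ℝ) ≤ min (1 / 4) (Real.exp (-(60 / κ))) * n)
    (A : Finset (Cell n)) (b : ℕ) (hb : b ≤ a) (hA : A.card = a * b) :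
    pr1 n p (fun G => κ * Real.log n / 4 * a ≤ ((G ∩ A).card : ℝ))
      ≤ ((1 : ℝ) / (n : ℝ) ^ 6) ^ a * ((1 : ℝ) / (n : ℝ) ^ 6) ^ b := by
  have hn0 : (0 : ℝ) < n := by exact_mod_cast (by omega : 0 < n)
  have ha0 : (0 : ℝ) < a := by exact_mod_cast ha
  have hlog : 0 ≤ Real.log n := Real.log_nonneg (by exact_mod_cast (by omega : 1 ≤ n))
  have hle1 : (a : ℝ) ≤ 1 / 4 * n :=
    hac.trans (mul_le_mul_of_nonneg_right (min_le_left _ _) hn0.le)
  have hle2 : (a : ℝ) ≤ Real.exp (-(60 / κ)) * n :=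
    hac.trans (mul_le_mul_of_nonneg_right (min_le_right _ _) hn0.le)
  have hx1 : (1 : ℝ) ≤ n / a := by
    rw [le_div_iff₀ ha0]; linarith
  have hx0 : (0 : ℝ) < n / a := by positivity
  have hlx : 60 / κ ≤ Real.log (n / a) := by
    rw [Real.le_log_iff_exp_le hx0, le_div_iff₀ ha0]
    have : Real.exp (60 / κ) * (Real.exp (-(60 / κ)) * n) = n := by
      rw [← mul_assoc, ← Real.exp_add]; simp
    calc Real.exp (60 / κ) * a ≤ Real.exp (60 / κ) * (Real.exp (-(60 / κ)) * n) :=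
          mul_le_mul_of_nonneg_left hle2 (Real.exp_pos _).le
      _ = n := this
  refine (pr1_le_card hp0 hp1 hx1 A _).trans ?_
  rw [Real.rpow_def_of_pos hx0, ← Real.exp_add]
  have h1 : Real.log (n / a) * -(κ * Real.log n / 4 * a) ≤ -(15 * a * Real.log n) := by
    have h2 : 60 / κ * (κ * Real.log n / 4 * a) ≤ Real.log (n / a) * (κ * Real.log n / 4 * a) :=
      mul_le_mul_of_nonneg_right hlx (by positivity)
    have h3 : 60 / κ * (κ * Real.log n / 4 * a) = 15 * a * Real.log n := by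
      field_simp; ring
    linarith
  have h4 : p * (n / a) * (A.card : ℝ) ≤ 3 * a * Real.log n := by
    rw [hA]
    push_cast
    have h5 : p * (n / a) * (a * b) = p * n * b := by field_simp
    rw [h5]
    have hb' : (b : ℝ) ≤ a := by exact_mod_cast hb
    calc p * n * b ≤ 3 * Real.log n * b := mul_le_mul_of_nonneg_right hpn (by positivity)
      _ ≤ 3 * Real.log n * a := mul_le_mul_of_nonneg_left hb' (by positivity)
      _ = _ := by ring
  have h6 : ((1 : ℝ) / (n : ℝ) ^ 6) ^ a * ((1 : ℝ) / (n : ℝ) ^ 6) ^ b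
      = Real.exp (-(6 * (a + b) * Real.log n)) := by
    have h7 : (1 : ℝ) / (n : ℝ) ^ 6 = Real.exp (-(6 * Real.log n)) := by
      rw [Real.exp_neg, one_div]
      congr 1
      have : (6 : ℝ) * Real.log n = ((6 : ℕ) : ℝ) * Real.log n := by norm_num
      rw [this, Real.exp_nat_mul, Real.exp_log hn0]
    rw [h7, ← Real.exp_nat_mul, ← Real.exp_nat_mul, ← Real.exp_add]
    congr 1; ring
  rw [h6]
  apply Real.exp_le_exp.mpr
  have hb' : (b : ℝ) ≤ a := by exact_mod_cast hb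
  nlinarith [mul_le_mul_of_nonneg_right hb' hlog]

theorem sum_pairs {n : ℕ} (hn : 3 ≤ n) :
    ∑ q ∈ (Finset.univ : Finset (Finset (Fin n) × Finset (Fin n))).filter (fun q => q.1.Nonempty),
      ((1 : ℝ) / (n : ℝ) ^ 6) ^ q.1.card * ((1 : ℝ) / (n : ℝ) ^ 6) ^ q.2.card
      ≤ 6 / (n : ℝ) ^ 5 := by
  set y : ℝ := (1 : ℝ) / (n : ℝ) ^ 6 with hy
  have hn0 : (0 : ℝ) < n := by exact_mod_cast (by omega : 0 < n)
  have hy0 : 0 < y := by positivity
  have hsum : ∑ S : Finset (Fin n), y ^ S.card = (1 + y) ^ n := by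
    have := Fintype.sum_pow_mul_eq_add_pow (Fin n) y 1
    simp only [one_pow, mul_one, Fintype.card_fin] at this
    rw [this, add_comm]
  have h1 : ∑ q ∈ (Finset.univ : Finset (Finset (Fin n) × Finset (Fin n))).filter
      (fun q => q.1.Nonempty), y ^ q.1.card * y ^ q.2.card
      = ((1 + y) ^ n - 1) * (1 + y) ^ n := by
    have h2 : (Finset.univ : Finset (Finset (Fin n) × Finset (Fin n))).filter
        (fun q => q.1.Nonempty)
        = ((Finset.univ : Finset (Finset (Fin n))).filter (fun S => S.Nonempty)) ×ˢ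
          (Finset.univ : Finset (Finset (Fin n))) := by
      ext q; simp
    rw [h2, Finset.sum_product]
    simp only [← Finset.mul_sum]
    rw [hsum, ← Finset.sum_mul]
    congr 1
    have h3 := Finset.sum_filter_add_sum_filter_not (Finset.univ : Finset (Finset (Fin n)))
      (fun S => S.Nonempty) (fun S => y ^ S.card)
    rw [hsum] at h3
    have h4 : (Finset.univ : Finset (Finset (Fin n))).filter (fun S => ¬ S.Nonempty) = {∅} := by
      ext S; simp [Finset.not_nonempty_iff_eq_empty]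
    rw [h4, Finset.sum_singleton] at h3
    simp only [Finset.card_empty, pow_zero] at h3
    linarith
  rw [h1]
  have hu : (n : ℝ) * y = 1 / (n : ℝ) ^ 5 := by rw [hy]; field_simp
  set u : ℝ := 1 / (n : ℝ) ^ 5 with hudef
  have hu0 : 0 < u := by positivity
  have hu1 : u ≤ 1 := by
    rw [hudef, div_le_one (by positivity)]
    exact one_le_pow₀ (by exact_mod_cast (by omega : 1 ≤ n))
  have h5 : (1 + y) ^ n ≤ Real.exp u := by
    rw [← hu, Real.exp_nat_mul]
    refine pow_le_pow_left₀ (by positivity) ?_ _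
    have := Real.add_one_le_exp y
    linarith
  have h6 : Real.exp u ≤ 1 + 2 * u := by
    have := Real.abs_exp_sub_one_le (x := u) (by rw [abs_of_pos hu0]; exact hu1)
    rw [abs_of_pos hu0] at this
    have h7 := (abs_le.mp this).2
    linarith
  have h8 : (1 + y) ^ n ≤ 1 + 2 * u := h5.trans h6
  have h9 : 1 ≤ (1 + y) ^ n := one_le_pow₀ (by linarith)
  calc ((1 + y) ^ n - 1) * (1 + y) ^ n ≤ (2 * u) * 3 := by
        apply mul_le_mul
        · linarith
        · linarith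
        · linarith
        · linarith
    _ = 6 / (n : ℝ) ^ 5 := by rw [hudef]; ring

theorem sparse : SparseStmt := by
  intro κ hκ
  refine ⟨min (1 / 4) (Real.exp (-(60 / κ))), lt_min (by norm_num) (Real.exp_pos _),
    min_le_left _ _, 3, ?_⟩
  intro n hn p hp0 hp1 hpn
  have hn0 : (0 : ℝ) < n := by exact_mod_cast (by omega : 0 < n)
  set c1 : ℝ := min (1 / 4) (Real.exp (-(60 / κ))) with hc1
  set F : Finset (Finset (Fin n) × Finset (Fin n)) :=
    (Finset.univ).filter (fun q => q.2.card < q.1.card ∧ (q.1.card : ℝ) ≤ c1 * n) with hF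
  set A1 : Finset (Fin n) × Finset (Fin n) → Finset (Cell n) → Prop :=
    fun q G => κ * Real.log n / 4 * q.1.card ≤ ((G ∩ (q.1 ×ˢ q.2)).card : ℝ) with hA1
  set A2 : Finset (Fin n) × Finset (Fin n) → Finset (Cell n) → Prop :=
    fun q G => κ * Real.log n / 4 * q.1.card ≤ ((G ∩ (q.2 ×ˢ q.1)).card : ℝ) with hA2
  have hstep : pr1 n p (fun G => ¬ Sparse (κ * Real.log n / 4) (c1 * n) G)
      ≤ pr1 n p (fun G => (∃ q ∈ F, A1 q G) ∨ (∃ q ∈ F, A2 q G)) := by
    apply pr1_mono hp0 hp1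
    intro G hG
    unfold Sparse at hG
    push Not at hG
    obtain ⟨S, T, hST, hSa, h⟩ := hG
    have e1 : G.filter (fun e => e.1 ∈ S ∧ e.2 ∈ T) = G ∩ (S ×ˢ T) := by
      ext e; simp [Finset.mem_filter, Finset.mem_inter, Finset.mem_product]
    have e2 : G.filter (fun e => e.1 ∈ T ∧ e.2 ∈ S) = G ∩ (T ×ˢ S) := by
      ext e; simp [Finset.mem_filter, Finset.mem_inter, Finset.mem_product]
    rw [e1, e2] at h
    have hmem : (S, T) ∈ F := by simp only [hF, Finset.mem_filter, Finset.mem_univ, true_and]; exact ⟨hST, hSa⟩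
    by_cases h1 : ((G ∩ (S ×ˢ T)).card : ℝ) < κ * Real.log n / 4 * S.card
    · right; exact ⟨(S, T), hmem, h h1⟩
    · left; exact ⟨(S, T), hmem, not_lt.mp h1⟩
  have hbd : ∀ q ∈ F, pr1 n p (A1 q) ≤ ((1 : ℝ) / (n : ℝ) ^ 6) ^ q.1.card * ((1 : ℝ) / (n : ℝ) ^ 6) ^ q.2.card := by
    intro q hq
    simp only [hF, Finset.mem_filter, Finset.mem_univ, true_and] at hq
    exact one_pair hκ hn hp0 hp1 hpn q.1.card (by omega) hq.2 _ q.2.card hq.1.le
      (by rw [Finset.card_product])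
  have hbd2 : ∀ q ∈ F, pr1 n p (A2 q) ≤ ((1 : ℝ) / (n : ℝ) ^ 6) ^ q.1.card * ((1 : ℝ) / (n : ℝ) ^ 6) ^ q.2.card := by
    intro q hq
    simp only [hF, Finset.mem_filter, Finset.mem_univ, true_and] at hq
    exact one_pair hκ hn hp0 hp1 hpn q.1.card (by omega) hq.2 _ q.2.card hq.1.le
      (by rw [Finset.card_product, mul_comm])
  have hsub : ∑ q ∈ F, ((1 : ℝ) / (n : ℝ) ^ 6) ^ q.1.card * ((1 : ℝ) / (n : ℝ) ^ 6) ^ q.2.card
      ≤ 6 / (n : ℝ) ^ 5 := by
    refine le_trans (Finset.sum_le_sum_of_subset_of_nonneg ?_ (fun q _ _ => by positivity))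
      (sum_pairs hn)
    intro q hq
    simp only [hF, Finset.mem_filter, Finset.mem_univ, true_and] at hq ⊢
    exact Finset.card_pos.mp (by omega)
  have h3 : (12 : ℝ) / (n : ℝ) ^ 5 ≤ 1 / (n : ℝ) ^ 2 := by
    rw [div_le_div_iff₀ (by positivity) (by positivity)]
    have hn3 : (3 : ℝ) ≤ n := by exact_mod_cast hn
    have h27 : (27 : ℝ) ≤ (n : ℝ) ^ 3 := by
      calc (27 : ℝ) = 3 ^ 3 := by norm_num
        _ ≤ (n : ℝ) ^ 3 := pow_le_pow_left₀ (by norm_num) hn3 3
    calc (12 : ℝ) * (n : ℝ) ^ 2 ≤ (n : ℝ) ^ 3 * (n : ℝ) ^ 2 :=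
          mul_le_mul_of_nonneg_right (by linarith) (by positivity)
      _ = 1 * (n : ℝ) ^ 5 := by ring
  calc pr1 n p (fun G => ¬ Sparse (κ * Real.log n / 4) (c1 * n) G)
      ≤ pr1 n p (fun G => (∃ q ∈ F, A1 q G) ∨ (∃ q ∈ F, A2 q G)) := hstep
    _ ≤ pr1 n p (fun G => ∃ q ∈ F, A1 q G) + pr1 n p (fun G => ∃ q ∈ F, A2 q G) :=
        pr1_or_le hp0 hp1 _ _
    _ ≤ (∑ q ∈ F, pr1 n p (A1 q)) + ∑ q ∈ F, pr1 n p (A2 q) :=
        add_le_add (pr1_exists_le hp0 hp1 F A1) (pr1_exists_le hp0 hp1 F A2)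
    _ ≤ 6 / (n : ℝ) ^ 5 + 6 / (n : ℝ) ^ 5 :=
        add_le_add ((Finset.sum_le_sum hbd).trans hsub) ((Finset.sum_le_sum hbd2).trans hsub)
    _ = 12 / (n : ℝ) ^ 5 := by ring
    _ ≤ 1 / (n : ℝ) ^ 2 := h3

end Pool.Agent.Helper93.LR
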